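import Pool.Agent.H711.KW.Lower
import Pool.Graph.R_seed8.H630R2.LR.Bounds

/-!
# The log-rank conjecture for almost all Boolean matrices of given rank

The `m × n` Boolean matrices `F : Fin m → Fin n → Bool` with real rank `r` are considered with the
uniform distribution, `N = min m n`.

(1) If `256 * r ^ 4 ≤ N`, all but a fraction of `2 ^ (- ⌊N / (16 (r + 1))⌋)` of them have at most `r + 1`
different rows or at most `r + 1` different columns.

(2) If `256 * r ^ 4 ≤ N`, all but this fraction have a protocol with `⌈log₂ (r + 1)⌉ + 1` bits. (The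
complexity of every matrix of rank `r` is at least `log₂ r`.)

(3) For all `m`, `n` and `r`, all but a fraction of `2 ^ (1 - N ^ (3/4) / 8)` have a protocol with
`4 ⌈log₂ (r + 1)⌉ + 9` bits.

Proof. Kupavskii and Weltge proved that sets `A`, `B` of vectors which span the space of dimension
`d`, with all scalar products zero or one, satisfy `|A| |B| ≤ (d + 1) 2 ^ d`. We show a stable form: if
`B` consists of Boolean vectors and both sets have more than `d + 1` elements, then
`|A| |B| ≤ (d + 7/8) 2 ^ d` (`closed_pair`, from `stable`). The rows of a matrix of rank `r` in the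
coordinates of a basis of rows, and the columns of the basis, form such a pair. There are at most
`2 ^ (r ^ 3)` maximal pairs, since the vectors of `A` are determined by quadratic equations (linear
equations for tensor squares), of which at most `r ^ 2` are independent. So the number of matrices of
rank `r` with more than `r + 1` rows and columns is at most `2 ^ (r ^ 3) (r + 7/8) ^ m 2 ^ (r n)` for
`m ≤ n`, whereas there are at least `2 ^ (r n - 1) (r + 1) ^ (m - r)` matrices of rank `r`.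
-/

set_option autoImplicit false
set_option linter.unusedSectionVars false

namespace Pool.Agent.Results.MP_e5d384_lc.AlmostAllMatrices

open Pool.Agent.H711 Pool.Agent.H630R2.LR

/-- `F` has a deterministic two-party protocol with exactly `c` bits. (Protocols exactly as in the
frozen statement S15531: `t` is the transcript so far, `owner t` says who speaks, and the answer is
a function of the transcript.) -/
def HasProtocol {X Y : Type} (F : X → Y → Bool) (c : ℕ) : Prop :=
  ∃ (owner : List Bool → Bool) (a : List Bool → X → Bool)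
      (b : List Bool → Y → Bool) (out : List Bool → Bool),
      ∀ x y, out (Nat.iterate
        (fun t : List Bool => t ++ [if owner t then a t x else b t y]) c []) = F x y

/-- The real rank of the 0/1 matrix of `F`. -/
noncomputable def rk {X Y : Type} [Fintype Y] (F : X → Y → Bool) : ℕ :=
  (Matrix.of fun (x : X) (y : Y) => if F x y then (1 : ℝ) else 0).rank

/-- The number of different rows. -/
noncomputable def rows {X Y : Type} (F : X → Y → Bool) : ℕ := Nat.card (Set.range F)

/-- The number of different columns. -/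
noncomputable def cols {X Y : Type} (F : X → Y → Bool) : ℕ :=
  Nat.card (Set.range fun y x => F x y)

theorem eq_false {m n : ℕ} (F : Fin m → Fin n → Bool) (h : rk F = 0) (x : Fin m) (y : Fin n) :
    F x y = false := by
  by_contra hcon
  have h1 : F x y = true := by simpa using hcon
  have h2 : (Matrix.of fun (x : Fin m) (y : Fin n) => if F x y then (1 : ℝ) else 0) = 0 := by
    have h4 : Module.finrank ℝ (LinearMap.range (Matrix.of fun (x : Fin m) (y : Fin n) =>
        if F x y then (1 : ℝ) else 0).mulVecLin) = 0 := h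
    rw [Submodule.finrank_eq_zero, LinearMap.range_eq_bot] at h4
    ext i j
    have h5 := congrFun (congrArg (fun f => f (Pi.single j (1 : ℝ))) h4) i
    simpa using h5
  have h3 := congrFun (congrFun h2 x) y
  simp [h1] at h3

theorem rank_zero {m n : ℕ} (F : Fin m → Fin n → Bool) (h : rk F = 0) : Proto F 0 :=
  Proto.const F false (eq_false F h)

theorem proto_rows {m n : ℕ} (F : Fin m → Fin n → Bool) (K : ℕ) (h : rows F ≤ K) :
    Proto F (Nat.clog 2 K + 1) := by
  classical
  rw [add_comm]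
  refine Proto.sendX (Q := Set.range F) F (fun x => ⟨F x, x, rfl⟩) (Nat.clog 2 K) ?_
    (fun q _ y => q.1 y) 1 (fun q => ?_) (fun x y => rfl)
  · rw [← Nat.card_eq_fintype_card]
    exact h.trans (Nat.le_pow_clog (by norm_num) _)
  · exact Proto.bob _ (fun y => q.1 y) (fun v _ _ => v) 0
      (fun v => Proto.const _ v fun _ _ => rfl) (fun _ _ => rfl)

theorem proto_cols {m n : ℕ} (F : Fin m → Fin n → Bool) (K : ℕ) (h : cols F ≤ K) :
    Proto F (Nat.clog 2 K + 1) :=
  (proto_rows (fun y x => F x y) K h).swap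

theorem rows_le {m n : ℕ} (F : Fin m → Fin n → Bool) : rows F ≤ m := by
  have h := Nat.card_le_card_of_surjective (fun x : Fin m => (⟨F x, x, rfl⟩ : Set.range F)) (by
    rintro ⟨_, x, rfl⟩
    exact ⟨x, rfl⟩)
  rwa [Nat.card_fin] at h

theorem cols_le {m n : ℕ} (F : Fin m → Fin n → Bool) : cols F ≤ n := rows_le fun y x => F x y

theorem proto_min {m n : ℕ} (F : Fin m → Fin n → Bool) : Proto F (Nat.clog 2 (min m n) + 1) := by
  rcases le_total m n with h | h
  · rw [min_eq_left h]
    exact proto_rows F m (rows_le F)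
  · rw [min_eq_right h]
    exact proto_cols F n (cols_le F)

theorem clog_mul_le (a b : ℕ) : Nat.clog 2 (a * b) ≤ Nat.clog 2 a + Nat.clog 2 b := by
  rw [Nat.clog_le_iff_le_pow (by norm_num), pow_add]
  exact Nat.mul_le_mul (Nat.le_pow_clog (by norm_num) _) (Nat.le_pow_clog (by norm_num) _)

/-- matrices of large rank -/
theorem proto_large {m n : ℕ} (F : Fin m → Fin n → Bool) (r : ℕ) (h : min m n ≤ 256 * r ^ 4) :
    Proto F (4 * Nat.clog 2 (r + 1) + 9) := by
  refine (proto_min F).mono ?_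
  have h1 : Nat.clog 2 (min m n) ≤ 4 * Nat.clog 2 (r + 1) + 8 := by
    rw [Nat.clog_le_iff_le_pow (by norm_num)]
    have h2 : r + 1 ≤ 2 ^ Nat.clog 2 (r + 1) := Nat.le_pow_clog (by norm_num) _
    calc min m n ≤ 256 * r ^ 4 := h
      _ ≤ 256 * (r + 1) ^ 4 := by gcongr; omega
      _ ≤ 256 * (2 ^ Nat.clog 2 (r + 1)) ^ 4 := by gcongr
      _ = 2 ^ (4 * Nat.clog 2 (r + 1) + 8) := by
          rw [← pow_mul, pow_add, mul_comm (Nat.clog 2 (r + 1)) 4]
          norm_num
          ring
  omega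

/-- **The log-rank conjecture for almost all Boolean matrices of given rank.** -/
theorem result :
    (∀ m n r : ℕ, 256 * r ^ 4 ≤ min m n →
      Nat.card {F : Fin m → Fin n → Bool // rk F = r ∧ r + 1 < rows F ∧ r + 1 < cols F} *
        2 ^ (min m n / (16 * (r + 1))) ≤ Nat.card {F : Fin m → Fin n → Bool // rk F = r}) ∧
    (∀ m n r : ℕ, 256 * r ^ 4 ≤ min m n →
      Nat.card {F : Fin m → Fin n → Bool //
          rk F = r ∧ ¬ HasProtocol F (Nat.clog 2 (r + 1) + 1)} *
        2 ^ (min m n / (16 * (r + 1))) ≤ Nat.card {F : Fin m → Fin n → Bool // rk F = r}) ∧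
    (∀ m n r : ℕ,
      (Nat.card {F : Fin m → Fin n → Bool //
          rk F = r ∧ ¬ HasProtocol F (4 * Nat.clog 2 (r + 1) + 9)} : ℝ) ≤
        (2 : ℝ) ^ (1 - ((min m n : ℕ) : ℝ) ^ (3 / 4 : ℝ) / 8) *
          Nat.card {F : Fin m → Fin n → Bool // rk F = r}) := by
  classical
  have h1 : ∀ m n r : ℕ, 256 * r ^ 4 ≤ min m n →
      Nat.card {F : Fin m → Fin n → Bool // rk F = r ∧ r + 1 < rows F ∧ r + 1 < cols F} *
        2 ^ (min m n / (16 * (r + 1))) ≤ Nat.card {F : Fin m → Fin n → Bool // rk F = r} := by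
    intro m n r hm
    rcases Nat.eq_zero_or_pos r with h0 | h0
    · subst h0
      have h2 : IsEmpty {F : Fin m → Fin n → Bool //
          rk F = 0 ∧ 0 + 1 < rows F ∧ 0 + 1 < cols F} := by
        refine ⟨fun F => ?_⟩
        obtain ⟨F, h1, h2, -⟩ := F
        have h3 : Subsingleton (Set.range F) := by
          refine ⟨?_⟩
          rintro ⟨_, x, rfl⟩ ⟨_, x', rfl⟩
          refine Subtype.ext (funext fun y => ?_)
          show F x y = F x' y
          rw [eq_false F h1, eq_false F h1]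
        have h4 : Nat.card (Set.range F) ≤ 1 := Finite.card_le_one_iff_subsingleton.mpr h3
        have h5 : 1 < Nat.card (Set.range F) := h2
        omega
      rw [Nat.card_of_isEmpty, zero_mul]
      exact Nat.zero_le _
    · exact KW.main m n r h0 hm
  have h2 : ∀ m n r : ℕ, 256 * r ^ 4 ≤ min m n →
      Nat.card {F : Fin m → Fin n → Bool //
          rk F = r ∧ ¬ HasProtocol F (Nat.clog 2 (r + 1) + 1)} *
        2 ^ (min m n / (16 * (r + 1))) ≤ Nat.card {F : Fin m → Fin n → Bool // rk F = r} := by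
    intro m n r hm
    refine le_trans (Nat.mul_le_mul_right _ ?_) (h1 m n r hm)
    refine Nat.card_le_card_of_injective (fun F => ⟨F.1, F.2.1, ?_, ?_⟩) fun F F' h =>
      Subtype.ext (congrArg (fun G : {F : Fin m → Fin n → Bool //
        rk F = r ∧ r + 1 < rows F ∧ r + 1 < cols F} => G.1) h)
    · by_contra hcon
      exact F.2.2 (proto_rows F.1 (r + 1) (not_lt.mp hcon))
    · by_contra hcon
      exact F.2.2 (proto_cols F.1 (r + 1) (not_lt.mp hcon))
  refine ⟨h1, h2, ?_⟩
  intro m n r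
  have hemp : (∀ F : Fin m → Fin n → Bool, rk F = r → Proto F (4 * Nat.clog 2 (r + 1) + 9)) →
      (Nat.card {F : Fin m → Fin n → Bool //
          rk F = r ∧ ¬ HasProtocol F (4 * Nat.clog 2 (r + 1) + 9)} : ℝ) ≤
        (2 : ℝ) ^ (1 - ((min m n : ℕ) : ℝ) ^ (3 / 4 : ℝ) / 8) *
          Nat.card {F : Fin m → Fin n → Bool // rk F = r} := by
    intro h
    have h3 : IsEmpty {F : Fin m → Fin n → Bool //
        rk F = r ∧ ¬ HasProtocol F (4 * Nat.clog 2 (r + 1) + 9)} :=
      ⟨fun F => F.2.2 (h F.1 F.2.1)⟩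
    rw [Nat.card_of_isEmpty, Nat.cast_zero]
    positivity
  rcases Nat.lt_or_ge (min m n) (256 * r ^ 4) with hm | hm
  · exact hemp fun F _ => proto_large F r hm.le
  rcases Nat.eq_zero_or_pos r with h0 | h0
  · subst h0
    exact hemp fun F hF => (rank_zero F hF).mono (Nat.zero_le _)
  set N := min m n with hN
  have h3 := h2 m n r hm
  rw [← hN] at h3
  have h4 : Nat.card {F : Fin m → Fin n → Bool //
      rk F = r ∧ ¬ HasProtocol F (4 * Nat.clog 2 (r + 1) + 9)} ≤
      Nat.card {F : Fin m → Fin n → Bool //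
          rk F = r ∧ ¬ HasProtocol F (Nat.clog 2 (r + 1) + 1)} := by
    refine Nat.card_le_card_of_injective (fun F => ⟨F.1, F.2.1, fun h => F.2.2 ?_⟩) fun F F' h =>
      Subtype.ext (congrArg (fun G : {F : Fin m → Fin n → Bool //
        rk F = r ∧ ¬ HasProtocol F (Nat.clog 2 (r + 1) + 1)} => G.1) h)
    have h5 : Proto F.1 (Nat.clog 2 (r + 1) + 1) := h
    exact h5.mono (by omega)
  set E := N / (16 * (r + 1)) with hE
  have h5 : (N : ℝ) ^ (3 / 4 : ℝ) / 8 - 1 ≤ E := by
    have hr1 : (1 : ℝ) ≤ r := by exact_mod_cast h0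
    have hNr : (256 : ℝ) * (r : ℝ) ^ 4 ≤ N := by exact_mod_cast hm
    have hN0 : (0 : ℝ) < N := lt_of_lt_of_le (by positivity) hNr
    have e1 : (4 : ℝ) * r ≤ (N : ℝ) ^ (1 / 4 : ℝ) := by
      have h6 : (((4 : ℝ) * (r : ℝ)) ^ (4 : ℕ)) ^ (1 / 4 : ℝ) ≤ (N : ℝ) ^ (1 / 4 : ℝ) := by
        apply Real.rpow_le_rpow (by positivity) _ (by norm_num)
        have h7 : ((4 : ℝ) * (r : ℝ)) ^ (4 : ℕ) = 256 * (r : ℝ) ^ 4 := by ring
        rw [h7]
        exact hNr
      rw [← Real.rpow_natCast, ← Real.rpow_mul (by positivity)] at h6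
      norm_num at h6
      linarith
    have e2 : (N : ℝ) = (N : ℝ) ^ (3 / 4 : ℝ) * (N : ℝ) ^ (1 / 4 : ℝ) := by
      rw [← Real.rpow_add hN0]
      norm_num
    have e3 : (N : ℝ) < (E + 1) * (16 * (r + 1)) := by
      have h6 : N < (E + 1) * (16 * (r + 1)) := by
        rw [hE, mul_comm]
        exact Nat.lt_mul_div_succ N (by positivity)
      exact_mod_cast h6
    have e4 : (N : ℝ) ^ (3 / 4 : ℝ) * (4 * r) ≤ (E + 1) * (32 * r) := by
      have h6 : (0 : ℝ) ≤ (N : ℝ) ^ (3 / 4 : ℝ) := by positivity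
      have h7 : (0 : ℝ) ≤ E := Nat.cast_nonneg _
      calc (N : ℝ) ^ (3 / 4 : ℝ) * (4 * r) ≤ (N : ℝ) ^ (3 / 4 : ℝ) * (N : ℝ) ^ (1 / 4 : ℝ) :=
            mul_le_mul_of_nonneg_left e1 h6
        _ = N := e2.symm
        _ ≤ (E + 1) * (16 * (r + 1)) := e3.le
        _ ≤ (E + 1) * (32 * r) := by
            apply mul_le_mul_of_nonneg_left _ (by linarith)
            linarith
    have e5 : (N : ℝ) ^ (3 / 4 : ℝ) ≤ (E + 1) * 8 := by
      have h6 : ((N : ℝ) ^ (3 / 4 : ℝ)) * (4 * r) ≤ ((E + 1) * 8) * (4 * r) := by linarith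
      exact le_of_mul_le_mul_right h6 (by positivity)
    linarith
  have h6 : (Nat.card {F : Fin m → Fin n → Bool //
      rk F = r ∧ ¬ HasProtocol F (4 * Nat.clog 2 (r + 1) + 9)} : ℝ) * (2 : ℝ) ^ (E : ℝ) ≤
      Nat.card {F : Fin m → Fin n → Bool // rk F = r} := by
    rw [Real.rpow_natCast]
    exact_mod_cast (Nat.mul_le_mul_right _ h4).trans h3
  have h7 : (1 : ℝ) ≤ (2 : ℝ) ^ (1 - (N : ℝ) ^ (3 / 4 : ℝ) / 8) * (2 : ℝ) ^ (E : ℝ) := by
    rw [← Real.rpow_add (by norm_num)]
    exact Real.one_le_rpow (by norm_num) (by linarith)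
  set Ce := (Nat.card {F : Fin m → Fin n → Bool //
      rk F = r ∧ ¬ HasProtocol F (4 * Nat.clog 2 (r + 1) + 9)} : ℝ) with hCe
  have hCe0 : 0 ≤ Ce := Nat.cast_nonneg _
  have hp : (0 : ℝ) ≤ (2 : ℝ) ^ (1 - (N : ℝ) ^ (3 / 4 : ℝ) / 8) := by positivity
  calc Ce = Ce * 1 := (mul_one _).symm
    _ ≤ Ce * ((2 : ℝ) ^ (1 - (N : ℝ) ^ (3 / 4 : ℝ) / 8) * (2 : ℝ) ^ (E : ℝ)) :=
        mul_le_mul_of_nonneg_left h7 hCe0
    _ = (2 : ℝ) ^ (1 - (N : ℝ) ^ (3 / 4 : ℝ) / 8) * (Ce * (2 : ℝ) ^ (E : ℝ)) := by ring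
    _ ≤ _ := mul_le_mul_of_nonneg_left h6 hp

end Pool.Agent.Results.MP_e5d384_lc.AlmostAllMatrices
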