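import Pool.Agent.H711.FC.Core
import Pool.Agent.H711.SC.Cube

/-!
# The log-rank conjecture for matrices whose rows have few large correlations

Let `F : X × Y → {0,1}` have real rank `r` and put `L = log₂ (r + 1)`. The correlation of two rows `x`,
`x'` with respect to a probability measure `μ` on the columns (any measure without null columns) is
`c(x, x') = |μ {y : F(x, y) = F(x', y)} - μ {y : F(x, y) ≠ F(x', y)}|`; it is `1` if and only if the
rows are equal or complementary. In dimension `r` unit vectors can be in general position with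
correlations of the order `r ^ (-1/2)`, and two random rows have a correlation of at least
`r ^ (-1/2)` in mean square. We show that the log-rank conjecture holds if there are few different
correlations above `r ^ (-1/2 - τ)`, for some `τ > 0`:

(1) Let the rows be divided into `t` classes such that every row `x` has at most `s` different
correlations `c(x, x')` between `(r + 1) ^ (-(1/2 + τ))` and `1` with the rows `x'` of its class, and
these are at most `1 - δ`. Then `D(F) ≤ log₂ t + (2 + 2 / τ) (s + 1) (L + log₂ (1 / δ)) + 6`. The measure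
may depend on the class.

(2) In particular, if the correlations within the classes are `0` or powers `2 ^ (-j)` (as for the
quadratic forms over `F_2` on a space of any dimension, or for the codewords of Kerdock and
Delsarte-Goethals codes), then `D(F) ≤ log₂ t + 12 (L + 1) ^ 2`.

The values of the correlations above the threshold may be different for different rows, and the
(arbitrarily many) correlations below the threshold may take any values. Without this tolerance
(all correlations of one of `s` values, spaces with few distances) the number of rows is bounded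
by the classical polynomial method.

Proof. Let `v_x` be the unit vectors of the rows, in a space of dimension `R = r + 1`, and `C x` the set
of the large correlations of `x`. The entries
`v_x · v_x' ↦ (v_x · v_x')^(2k) ∏_{a ∈ C x} ((v_x · v_x')² - a²) / (1 - a²)` form a matrix of rank at
most `2 R ^ (2 (k + s))` with ones on the diagonal and tiny entries elsewhere, if `k` is about
`s / τ`; comparing trace, rank and Frobenius norm for a suitable number of rows gives a bound for the
number of the rows up to complements.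
-/

set_option autoImplicit false
set_option linter.unusedSectionVars false

namespace Pool.Agent.Results.MP_e5d384_lc.FewCorrelations

open Finset Pool.Agent.H711.FC Pool.Agent.H711.SC Pool.Agent.H630R2.LR

/-- `F` has a deterministic two-party protocol with exactly `c` bits. (Protocols exactly as in the
frozen statement S15531: `t` is the transcript so far, `owner t` says who speaks, and the answer is
a function of the transcript.) -/
def HasProtocol {X Y : Type} (F : X → Y → Bool) (c : ℕ) : Prop :=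
  ∃ (owner : List Bool → Bool) (a : List Bool → X → Bool)
      (b : List Bool → Y → Bool) (out : List Bool → Bool),
      ∀ x y, out (Nat.iterate
        (fun t : List Bool => t ++ [if owner t then a t x else b t y]) c []) = F x y

/-- The real rank of the 0/1 matrix of `F`. -/
noncomputable def rk {X Y : Type} [Fintype Y] (F : X → Y → Bool) : ℕ :=
  (Matrix.of fun (x : X) (y : Y) => if F x y then (1 : ℝ) else 0).rank

/-- The correlation of two rows with respect to the weights `w` of the columns: the absolute value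
of the weight of the columns where the rows agree minus the weight of those where they differ. -/
noncomputable def corr {X Y : Type} [Fintype Y] (F : X → Y → Bool) (w : Y → ℝ) (x x' : X) : ℝ :=
  |∑ y, w y * (if F x y = F x' y then 1 else -1)|

section aux

variable {X Y : Type} [Fintype X] [Fintype Y] (F : X → Y → Bool)

/-- the matrix of signs -/
noncomputable def sg (x : X) (y : Y) : ℝ := if F x y then 1 else -1

theorem sg_mul (x x' : X) (y : Y) :
    sg F x y * sg F x' y = if F x y = F x' y then 1 else -1 := by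
  unfold sg
  cases F x y <;> cases F x' y <;> simp

theorem rank_sg : (Matrix.of fun (x : X) (y : Y) => sg F x y).rank ≤ rk F + 1 := by
  classical
  have e : (Matrix.of fun (x : X) (y : Y) => sg F x y) =
      (Matrix.diagonal fun _ : X => (2 : ℝ)) *
        (Matrix.of fun (x : X) (y : Y) => if F x y then (1 : ℝ) else 0) +
      Matrix.vecMulVec (fun _ : X => (-1 : ℝ)) (fun _ : Y => 1) := by
    ext x y
    simp only [Matrix.of_apply, Matrix.add_apply, Matrix.diagonal_mul, Matrix.vecMulVec_apply, sg]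
    cases F x y <;> norm_num
  rw [e]
  refine (Pool.Agent.R533.VC.rank_add_le' _ _).trans (Nat.add_le_add ?_ ?_)
  · exact Matrix.rank_mul_le_right _ _
  · exact Matrix.rank_vecMulVec_le _ _

theorem rank_gram (w : Y → ℝ) :
    (Matrix.of fun (x x' : X) => ∑ y, w y * (if F x y = F x' y then (1 : ℝ) else -1)).rank ≤
      rk F + 1 := by
  classical
  have e : (Matrix.of fun (x x' : X) => ∑ y, w y * (if F x y = F x' y then (1 : ℝ) else -1)) =
      (Matrix.of fun (x : X) (y : Y) => sg F x y) *
        (Matrix.of fun (y : Y) (x : X) => w y * sg F x y) := by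
    ext x x'
    simp only [Matrix.of_apply, Matrix.mul_apply]
    refine Finset.sum_congr rfl fun y _ => ?_
    rw [← sg_mul]
    ring
  rw [e]
  exact (Matrix.rank_mul_le_left _ _).trans (rank_sg F)

/-- rows which are neither equal nor complementary have a correlation less than one -/
theorem corr_lt (w : Y → ℝ) (hw : ∀ y, 0 < w y) (hw1 : ∑ y, w y = 1) (x x' : X)
    (h1 : ∃ y, F x y = F x' y) (h2 : ∃ y, F x y ≠ F x' y) : corr F w x x' < 1 := by
  obtain ⟨y1, hy1⟩ := h1
  obtain ⟨y2, hy2⟩ := h2
  unfold corr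
  rw [abs_lt]
  constructor
  · have : ∑ y, w y * (-1 : ℝ) < ∑ y, w y * (if F x y = F x' y then (1 : ℝ) else -1) := by
      refine Finset.sum_lt_sum (fun y _ => ?_) ⟨y1, mem_univ _, ?_⟩
      · refine mul_le_mul_of_nonneg_left ?_ (hw y).le
        split_ifs <;> norm_num
      · rw [if_pos hy1]
        linarith [hw y1]
    rw [← Finset.sum_mul, hw1] at this
    linarith
  · have : ∑ y, w y * (if F x y = F x' y then (1 : ℝ) else -1) < ∑ y, w y * (1 : ℝ) := by
      refine Finset.sum_lt_sum (fun y _ => ?_) ⟨y2, mem_univ _, ?_⟩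
      · refine mul_le_mul_of_nonneg_left ?_ (hw y).le
        split_ifs <;> norm_num
      · rw [if_neg hy2]
        linarith [hw y2]
    rw [← Finset.sum_mul, hw1] at this
    linarith

/-- the row or its complement, with the value `false` at `y₀` -/
def nf (y₀ : Y) (x : X) : Y → Bool := fun y => xor (F x y) (F x y₀)

theorem nf_eq (y₀ : Y) (x x' : X) (h : nf F y₀ x ≠ nf F y₀ x') :
    (∃ y, F x y = F x' y) ∧ ∃ y, F x y ≠ F x' y := by
  constructor
  · by_contra hcon
    push Not at hcon
    apply h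
    funext y
    unfold nf
    have h1 := hcon y
    have h2 := hcon y₀
    revert h1 h2
    cases F x y <;> cases F x' y <;> cases F x y₀ <;> cases F x' y₀ <;> simp
  · by_contra hcon
    push Not at hcon
    apply h
    funext y
    unfold nf
    rw [hcon y, hcon y₀]

/-- few rows up to complements give a protocol -/
theorem proto_nf (y₀ : Y) (K : ℕ) (hK : ((univ : Finset X).image (nf F y₀)).card ≤ K) :
    Proto F (1 + Nat.clog 2 (K * 2)) := by
  classical
  refine Proto.sendX (Q := ((univ : Finset X).image (nf F y₀)) × Bool) F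
    (fun x => (⟨nf F y₀ x, mem_image_of_mem _ (mem_univ x)⟩, F x y₀)) (Nat.clog 2 (K * 2)) ?_
    (fun q _ y => xor (q.1.1 y) q.2) 1 (fun q => ?_) (fun x y => ?_)
  · rw [Fintype.card_prod, Fintype.card_coe, Fintype.card_bool]
    exact (Nat.mul_le_mul_right 2 hK).trans (Nat.le_pow_clog (by norm_num) _)
  · exact Proto.bob _ (fun y => xor (q.1.1 y) q.2) (fun v _ _ => v) 0
      (fun v => Proto.const _ v fun _ _ => rfl) (fun _ _ => rfl)
  · show F x y = xor (xor (F x y) (F x y₀)) (F x y₀)
    cases F x y <;> cases F x y₀ <;> rfl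

/-- The number of rows up to complements in a class. -/
theorem class_card [Nonempty Y] (y₀ : Y) (w : Y → ℝ) (hw : ∀ y, 0 < w y) (hw1 : ∑ y, w y = 1)
    (A : Finset X) (ε δ : ℝ) (hε1 : ε ≤ 1) (hδ : 0 < δ) (hδ1 : δ ≤ 1)
    (k s : ℕ) (hr : 1 ≤ rk F)
    (hs : ∀ x ∈ A, ((A.filter fun x' => ε < corr F w x x' ∧ corr F w x x' < 1).image
      fun x' => corr F w x x').card ≤ s)
    (hcd : ∀ x ∈ A, ∀ x' ∈ A, corr F w x x' < 1 → ε < corr F w x x' → corr F w x x' ≤ 1 - δ)
    (hη : (9 * ((rk F + 1 : ℕ) : ℝ) ^ (2 * (k + s))) * (ε ^ (2 * k) * (δ⁻¹) ^ s) ^ 2 ≤ 1) :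
    (A.image (nf F y₀)).card ≤ 8 * (rk F + 1) ^ (2 * (k + s)) := by
  classical
  have hrep : ∀ g : A.image (nf F y₀), ∃ x ∈ A, nf F y₀ x = g.1 := fun g => mem_image.mp g.2
  choose ρ hρA hρ using hrep
  have hne : ∀ g g' : A.image (nf F y₀), g ≠ g' → corr F w (ρ g) (ρ g') < 1 := by
    intro g g' hg
    have h1 : nf F y₀ (ρ g) ≠ nf F y₀ (ρ g') := by
      rw [hρ, hρ]
      exact fun h => hg (Subtype.ext h)
    obtain ⟨h2, h3⟩ := nf_eq F y₀ _ _ h1
    exact corr_lt F w hw hw1 _ _ h2 h3
  have h := card_le (n := A.image (nf F y₀))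
    ((Matrix.of fun (x x' : X) => ∑ y, w y * (if F x y = F x' y then (1 : ℝ) else -1)).submatrix
      ρ ρ) (rk F + 1) (by omega) ((Matrix.rank_submatrix_le _ _ _).trans (rank_gram F w))
    (fun g => by simp [hw1]) ε δ hε1 hδ hδ1 k s
    (fun g => (A.filter fun x' => ε < corr F w (ρ g) x' ∧ corr F w (ρ g) x' < 1).image
      fun x' => corr F w (ρ g) x') (fun g => hs _ (hρA g))
    (fun g a ha => by
      obtain ⟨x', hx', rfl⟩ := mem_image.mp ha
      obtain ⟨hx'A, hx1, hx2⟩ := mem_filter.mp hx'
      exact ⟨abs_nonneg _, hcd _ (hρA g) _ hx'A hx2 hx1⟩)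
    (fun g g' hg => by
      rcases le_or_gt (corr F w (ρ g) (ρ g')) ε with h1 | h1
      · right
        exact h1
      · left
        exact mem_image.mpr ⟨ρ g', mem_filter.mpr ⟨hρA g', h1, hne g g' hg⟩, rfl⟩) hη
  rwa [Fintype.card_coe] at h

end aux

/-- The choice of `k`. -/
theorem choose_k (R : ℕ) (hR : 2 ≤ R) (τ δ : ℝ) (hτ : 0 < τ) (hδ : 0 < δ) (hδ1 : δ ≤ 1) (s : ℕ) :
    ∃ k : ℕ, (9 * (R : ℝ) ^ (2 * (k + s))) *
        (((R : ℝ) ^ (-(1 / 2 + τ))) ^ (2 * k) * (δ⁻¹) ^ s) ^ 2 ≤ 1 ∧
      (k : ℝ) * Real.logb 2 R ≤ Real.logb 2 R + (2 + s * (Real.logb 2 R + Real.logb 2 δ⁻¹)) / (2 * τ) := by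
  have hR0 : (0 : ℝ) < R := by exact_mod_cast (by omega : 0 < R)
  have hR2 : (2 : ℝ) ≤ R := by exact_mod_cast hR
  set L := Real.logb 2 R with hL
  have hL1 : 1 ≤ L := by
    have : Real.logb 2 2 ≤ Real.logb 2 R := Real.logb_le_logb_of_le (by norm_num) (by norm_num) hR2
    rwa [Real.logb_self_eq_one (by norm_num)] at this
  set Δ := Real.logb 2 δ⁻¹ with hΔ
  have hΔ0 : 0 ≤ Δ := Real.logb_nonneg (by norm_num) ((one_le_inv₀ hδ).mpr hδ1)
  set κ : ℝ := (2 + s * (L + Δ)) / (2 * τ * L) with hκ
  have hκ0 : 0 ≤ κ := by positivity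
  refine ⟨⌈κ⌉₊, ?_, ?_⟩
  · set k := ⌈κ⌉₊ with hk
    have hkκ : κ ≤ k := Nat.le_ceil κ
    have h1 : 2 + s * (L + Δ) ≤ k * (2 * τ * L) := by
      have : (2 + s * (L + Δ)) = κ * (2 * τ * L) := by
        rw [hκ]
        field_simp
      rw [this]
      exact mul_le_mul_of_nonneg_right hkκ (by positivity)
    -- everything as powers of two
    have eR : (R : ℝ) = (2 : ℝ) ^ L := by
      rw [hL, Real.rpow_logb (by norm_num) (by norm_num) hR0]
    have eδ : δ⁻¹ = (2 : ℝ) ^ Δ := by
      rw [hΔ, Real.rpow_logb (by norm_num) (by norm_num) (inv_pos.mpr hδ)]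
    have h9 : (9 : ℝ) ≤ (2 : ℝ) ^ (4 : ℝ) := by norm_num
    have e1 : ((R : ℝ) ^ (-(1 / 2 + τ))) ^ (2 * k) = (2 : ℝ) ^ (-(1 / 2 + τ) * L * (2 * k)) := by
      rw [eR, ← Real.rpow_mul (by norm_num), ← Real.rpow_natCast, ← Real.rpow_mul (by norm_num)]
      congr 1
      push_cast
      ring
    have e2 : (R : ℝ) ^ (2 * (k + s)) = (2 : ℝ) ^ (2 * (k + s) * L) := by
      rw [eR, ← Real.rpow_natCast, ← Real.rpow_mul (by norm_num)]
      congr 1
      push_cast
      ring
    have e3 : (δ⁻¹) ^ s = (2 : ℝ) ^ (s * Δ) := by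
      rw [eδ, ← Real.rpow_natCast, ← Real.rpow_mul (by norm_num)]
      congr 1
      ring
    rw [e1, e2, e3, ← Real.rpow_add (by norm_num), ← Real.rpow_natCast,
      ← Real.rpow_mul (by norm_num)]
    calc 9 * (2 : ℝ) ^ (2 * (k + s) * L) *
          (2 : ℝ) ^ ((-(1 / 2 + τ) * L * (2 * k) + s * Δ) * ((2 : ℕ) : ℝ))
        ≤ (2 : ℝ) ^ (4 : ℝ) * (2 : ℝ) ^ (2 * (k + s) * L) *
          (2 : ℝ) ^ ((-(1 / 2 + τ) * L * (2 * k) + s * Δ) * ((2 : ℕ) : ℝ)) := by
          gcongr
      _ = (2 : ℝ) ^ (4 + 2 * (k + s) * L + (-(1 / 2 + τ) * L * (2 * k) + s * Δ) * ((2 : ℕ) : ℝ)) := by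
          rw [← Real.rpow_add (by norm_num), ← Real.rpow_add (by norm_num)]
      _ ≤ (2 : ℝ) ^ (0 : ℝ) := by
          refine Real.rpow_le_rpow_of_exponent_le (by norm_num) ?_
          push_cast
          nlinarith
      _ = 1 := Real.rpow_zero _
  · have h1 : ((⌈κ⌉₊ : ℕ) : ℝ) < κ + 1 := Nat.ceil_lt_add_one hκ0
    have h2 : κ * L = (2 + s * (L + Δ)) / (2 * τ) := by
      rw [hκ]
      have : L ≠ 0 := by linarith
      field_simp
    nlinarith

/-- **The log-rank conjecture for matrices whose rows have few large correlations.** `r = rk F`.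
(1) The rows are divided into `t` classes, `w c` are the weights of the columns for the class `c`
(positive, with sum `1`). For every row `x` the correlations `corr F (w c) x x'` with the rows `x'` of
the same class which are between `(r + 1) ^ (-(1/2 + τ))` and `1` take at most `s` values, all of them at
most `1 - δ`.
(2) The correlations within the classes are `0`, `1` or of the form `2 ^ (-j)`. -/
theorem result :
    (∀ (X Y : Type) [Fintype X] [Fintype Y] (F : X → Y → Bool) (t s : ℕ) (cls : X → Fin t)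
      (w : Fin t → Y → ℝ) (τ δ : ℝ), 0 < τ → 0 < δ → δ ≤ 1 →
      (∀ c y, 0 < w c y) → (∀ c, ∑ y, w c y = 1) →
      (∀ x : X, {a : ℝ | ∃ x', cls x' = cls x ∧ corr F (w (cls x)) x x' = a ∧
        ((rk F : ℝ) + 1) ^ (-(1 / 2 + τ)) < a ∧ a < 1}.ncard ≤ s) →
      (∀ x x' : X, cls x' = cls x → corr F (w (cls x)) x x' < 1 →
        ((rk F : ℝ) + 1) ^ (-(1 / 2 + τ)) < corr F (w (cls x)) x x' →
        corr F (w (cls x)) x x' ≤ 1 - δ) →
      ∃ c : ℕ, HasProtocol F c ∧ (c : ℝ) ≤ Real.logb 2 t +
        (2 + 2 / τ) * (s + 1) * (Real.logb 2 (rk F + 1) + Real.logb 2 (1 / δ)) + 6) ∧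
    (∀ (X Y : Type) [Fintype X] [Fintype Y] (F : X → Y → Bool) (t : ℕ) (cls : X → Fin t)
      (w : Fin t → Y → ℝ), (∀ c y, 0 < w c y) → (∀ c, ∑ y, w c y = 1) →
      (∀ x x' : X, cls x' = cls x → corr F (w (cls x)) x x' = 0 ∨
        ∃ j : ℕ, corr F (w (cls x)) x x' = (1 / 2) ^ j) →
      ∃ c : ℕ, HasProtocol F c ∧ (c : ℝ) ≤ Real.logb 2 t +
        12 * (Real.logb 2 (rk F + 1) + 1) ^ 2) := by
  classical
  have main : ∀ (X Y : Type) [Fintype X] [Fintype Y] (F : X → Y → Bool) (t s : ℕ) (cls : X → Fin t)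
      (w : Fin t → Y → ℝ) (τ δ : ℝ), 0 < τ → 0 < δ → δ ≤ 1 →
      (∀ c y, 0 < w c y) → (∀ c, ∑ y, w c y = 1) →
      (∀ x : X, {a : ℝ | ∃ x', cls x' = cls x ∧ corr F (w (cls x)) x x' = a ∧
        ((rk F : ℝ) + 1) ^ (-(1 / 2 + τ)) < a ∧ a < 1}.ncard ≤ s) →
      (∀ x x' : X, cls x' = cls x → corr F (w (cls x)) x x' < 1 →
        ((rk F : ℝ) + 1) ^ (-(1 / 2 + τ)) < corr F (w (cls x)) x x' →
        corr F (w (cls x)) x x' ≤ 1 - δ) →
      ∃ c : ℕ, Proto F c ∧ (c : ℝ) ≤ Real.logb 2 t +
        (2 + 2 / τ) * (s + 1) * (Real.logb 2 (rk F + 1) + Real.logb 2 (1 / δ)) + 6 := by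
    intro X Y _ _ F t s cls w τ δ hτ hδ hδ1 hw hw1 hs hcd
    have hΔ0 : 0 ≤ Real.logb 2 (1 / δ) :=
      Real.logb_nonneg (by norm_num) (by rw [one_div]; exact (one_le_inv₀ hδ).mpr hδ1)
    have hl0 : 0 ≤ Real.logb 2 ((rk F : ℝ) + 1) := by
      apply Real.logb_nonneg (by norm_num)
      linarith [Nat.cast_nonneg (α := ℝ) (rk F)]
    have ht0 : 0 ≤ Real.logb 2 (t : ℝ) := lb_nonneg t
    have hτ2 : 0 < 2 / τ := by positivity
    rcases Nat.eq_zero_or_pos (rk F) with hr | hr
    · -- rank zero
      have h0 : ∀ x y, F x y = false := by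
        intro x y
        by_contra hcon
        have h1 : F x y = true := by simpa using hcon
        have h2 : (Matrix.of fun (x : X) (y : Y) => if F x y then (1 : ℝ) else 0) = 0 := by
          have h4 : Module.finrank ℝ (LinearMap.range (Matrix.of fun (x : X) (y : Y) =>
              if F x y then (1 : ℝ) else 0).mulVecLin) = 0 := hr
          rw [Submodule.finrank_eq_zero, LinearMap.range_eq_bot] at h4
          ext i j
          have h5 := congrFun (congrArg (fun f => f (Pi.single j (1 : ℝ))) h4) i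
          simpa using h5
        have h3 := congrFun (congrFun h2 x) y
        simp [h1] at h3
      refine ⟨0, Proto.const F false h0, ?_⟩
      push_cast
      positivity
    rcases isEmpty_or_nonempty X with hX | ⟨⟨x₀⟩⟩
    · refine ⟨0, Proto.const F false (fun x => (hX.false x).elim), ?_⟩
      push_cast
      positivity
    rcases isEmpty_or_nonempty Y with hY | ⟨⟨y₀⟩⟩
    · refine ⟨0, Proto.const F false (fun _ y => (hY.false y).elim), ?_⟩
      push_cast
      positivity
    have _hY : Nonempty Y := ⟨y₀⟩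
    have ht : 0 < t := (Nat.zero_le _).trans_lt (cls x₀).2
    obtain ⟨k, hk1, hk2⟩ := choose_k (rk F + 1) (by omega) τ δ hτ hδ hδ1 s
    set ε : ℝ := ((rk F : ℝ) + 1) ^ (-(1 / 2 + τ)) with hε
    have hε1 : ε ≤ 1 := by
      rw [hε]
      apply Real.rpow_le_one_of_one_le_of_nonpos
      · linarith [Nat.cast_nonneg (α := ℝ) (rk F)]
      · linarith
    have hRc : ((rk F + 1 : ℕ) : ℝ) = (rk F : ℝ) + 1 := by push_cast; ring
    have hcls : ∀ c : Fin t, ((univ.filter fun x => cls x = c).image (nf F y₀)).card ≤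
        8 * (rk F + 1) ^ (2 * (k + s)) := by
      intro c
      refine class_card F y₀ (w c) (hw c) (hw1 c) _ ε δ hε1 hδ hδ1 k s hr ?_ ?_ ?_
      · intro x hx
        have hxc : cls x = c := (mem_filter.mp hx).2
        refine le_trans ?_ (hs x)
        rw [← Set.ncard_coe_finset]
        refine Set.ncard_le_ncard ?_ ?_
        · intro a ha
          obtain ⟨x', hx', rfl⟩ := mem_image.mp (Finset.mem_coe.mp ha)
          obtain ⟨h1, h2, h3⟩ := mem_filter.mp hx'
          have h4 : cls x' = c := (mem_filter.mp h1).2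
          refine ⟨x', by rw [h4, hxc], ?_, ?_, ?_⟩
          · rw [hxc]
          · exact h2
          · exact h3
        · refine Set.Finite.subset (Set.finite_range fun x' => corr F (w (cls x)) x x') ?_
          rintro a ⟨x', -, ha, -⟩
          exact ⟨x', ha⟩
      · intro x hx x' hx' h1 h2
        have hxc : cls x = c := (mem_filter.mp hx).2
        have hxc' : cls x' = c := (mem_filter.mp hx').2
        have := hcd x x' (by rw [hxc, hxc']) (by rw [hxc]; exact h1) (by rw [hxc]; exact h2)
        rwa [hxc] at this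
      · rw [hRc]
        rw [hRc] at hk1
        exact hk1
    have hall : ((univ : Finset X).image (nf F y₀)).card ≤
        t * (8 * (rk F + 1) ^ (2 * (k + s))) := by
      have h1 : (univ : Finset X).image (nf F y₀) =
          (univ : Finset (Fin t)).biUnion fun c =>
            (univ.filter fun x => cls x = c).image (nf F y₀) := by
        ext g
        simp
      rw [h1]
      refine Finset.card_biUnion_le.trans ((Finset.sum_le_sum fun c _ => hcls c).trans ?_)
      rw [Finset.sum_const, Finset.card_univ, Fintype.card_fin, smul_eq_mul]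
    refine ⟨_, proto_nf F y₀ _ hall, ?_⟩
    have h1 : (Nat.clog 2 (t * (8 * (rk F + 1) ^ (2 * (k + s))) * 2) : ℝ) ≤
        lb (t * (8 * (rk F + 1) ^ (2 * (k + s))) * 2) + 1 := clog_le _
    have h2 : lb (t * (8 * (rk F + 1) ^ (2 * (k + s))) * 2) ≤
        lb t + (3 + 2 * (k + s) * lb (rk F + 1)) + 1 := by
      calc lb (t * (8 * (rk F + 1) ^ (2 * (k + s))) * 2) ≤
            lb (t * (8 * (rk F + 1) ^ (2 * (k + s)))) + lb 2 := lb_mul_le _ _
        _ ≤ lb t + lb (8 * (rk F + 1) ^ (2 * (k + s))) + lb 2 := by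
            have := lb_mul_le t (8 * (rk F + 1) ^ (2 * (k + s)))
            linarith
        _ ≤ lb t + (lb 8 + lb ((rk F + 1) ^ (2 * (k + s)))) + lb 2 := by
            have := lb_mul_le 8 ((rk F + 1) ^ (2 * (k + s)))
            linarith
        _ = _ := by
            have h8 : lb 8 = 3 := by
              have : (8 : ℕ) = 2 ^ 3 := by norm_num
              rw [this, lb_pow, lb_two]
              norm_num
            rw [h8, lb_two, lb_pow]
            push_cast
            ring
    have h3 : lb (rk F + 1) = Real.logb 2 ((rk F : ℝ) + 1) := by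
      unfold lb
      rw [hRc]
    have hdd : Real.logb 2 (1 / δ) = Real.logb 2 δ⁻¹ := by rw [one_div]
    rw [hRc] at hk2
    have hLL1 : 1 ≤ Real.logb 2 ((rk F : ℝ) + 1) := by
      have : Real.logb 2 2 ≤ Real.logb 2 ((rk F : ℝ) + 1) :=
        Real.logb_le_logb_of_le (by norm_num) (by norm_num) (by
          have : (1 : ℝ) ≤ rk F := by exact_mod_cast hr
          linarith)
      rwa [Real.logb_self_eq_one (by norm_num)] at this
    rw [hdd] at hΔ0 ⊢
    rw [h3] at h2
    set L := Real.logb 2 ((rk F : ℝ) + 1) with hL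
    set Δ := Real.logb 2 δ⁻¹ with hΔ
    have hs0 : (0 : ℝ) ≤ s := Nat.cast_nonneg _
    have h4 : 2 * ((k : ℝ) * L) ≤ 2 * L + (2 + s * (L + Δ)) / τ := by
      have : (2 + s * (L + Δ)) / τ = 2 * ((2 + s * (L + Δ)) / (2 * τ)) := by
        field_simp
      rw [this]
      linarith
    have h5 : (2 + s * (L + Δ)) / τ ≤ 2 / τ * ((s + 1) * (L + Δ)) := by
      rw [div_mul_eq_mul_div]
      apply div_le_div_of_nonneg_right _ hτ.le
      nlinarith
    push_cast
    show 1 + (Nat.clog 2 (t * (8 * (rk F + 1) ^ (2 * (k + s))) * 2) : ℝ) ≤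
      lb t + (2 + 2 / τ) * (s + 1) * (L + Δ) + 6
    have h6 : 2 * (s + 1) * L ≤ 2 * ((s + 1) * (L + Δ)) := by nlinarith
    nlinarith
  refine ⟨main, ?_⟩
  intro X Y _ _ F t cls w hw hw1 hc
  set L := Real.logb 2 ((rk F : ℝ) + 1) with hL
  have hL0 : 0 ≤ L := by
    apply Real.logb_nonneg (by norm_num)
    linarith [Nat.cast_nonneg (α := ℝ) (rk F)]
  have hR0 : (0 : ℝ) < (rk F : ℝ) + 1 := by linarith [Nat.cast_nonneg (α := ℝ) (rk F)]
  obtain ⟨c, hcp, hcc⟩ := main X Y F t ⌊L⌋₊ cls w (1 / 2) (1 / 2) (by norm_num) (by norm_num)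
    (by norm_num) hw hw1 (fun x => by
      have hsub : {a : ℝ | ∃ x', cls x' = cls x ∧ corr F (w (cls x)) x x' = a ∧
          ((rk F : ℝ) + 1) ^ (-(1 / 2 + (1 / 2 : ℝ))) < a ∧ a < 1} ⊆
          (((Finset.Icc 1 ⌊L⌋₊).image fun j => (1 / 2 : ℝ) ^ j : Finset ℝ) : Set ℝ) := by
        rintro a ⟨x', hx', ha, ha1, ha2⟩
        rcases hc x x' hx' with h0 | ⟨j, hj⟩
        · exfalso
          rw [← ha, h0] at ha1
          exact absurd ha1 (not_lt.mpr (Real.rpow_nonneg hR0.le _))
        · have hj' : a = (1 / 2) ^ j := ha.symm.trans hj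
          rw [Finset.mem_coe, Finset.mem_image]
          refine ⟨j, Finset.mem_Icc.mpr ⟨?_, ?_⟩, hj'.symm⟩
          · by_contra hj0
            have : j = 0 := by omega
            rw [hj', this, pow_zero] at ha2
            exact lt_irrefl _ ha2
          · apply Nat.le_floor
            rw [hj'] at ha1
            have h1 : ((rk F : ℝ) + 1) ^ (-(1 / 2 + (1 / 2 : ℝ))) = ((rk F : ℝ) + 1)⁻¹ := by
              norm_num
              exact Real.rpow_neg_one _
            rw [h1, one_div, inv_pow] at ha1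
            have h2 : (2 : ℝ) ^ j < (rk F : ℝ) + 1 := by
              rwa [inv_lt_inv₀ hR0 (by positivity)] at ha1
            have h3 : Real.logb 2 ((2 : ℝ) ^ j) ≤ L := by
              rw [hL]
              exact Real.logb_le_logb_of_le (by norm_num) (by positivity) h2.le
            rwa [Real.logb_pow, Real.logb_self_eq_one (by norm_num), mul_one] at h3
      refine (Set.ncard_le_ncard hsub (Finset.finite_toSet _)).trans ?_
      rw [Set.ncard_coe_finset]
      exact Finset.card_image_le.trans (by simp)) (fun x x' hx' h1 h2 => by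
      rcases hc x x' hx' with h0 | ⟨j, hj⟩
      · rw [h0]
        norm_num
      · rw [hj] at h1 ⊢
        have hj1 : 1 ≤ j := by
          by_contra hj0
          have : j = 0 := by omega
          rw [this, pow_zero] at h1
          exact lt_irrefl _ h1
        calc (1 / 2 : ℝ) ^ j ≤ (1 / 2) ^ 1 :=
              pow_le_pow_of_le_one (by norm_num) (by norm_num) hj1
          _ ≤ 1 - 1 / 2 := by norm_num)
  refine ⟨c, hcp, hcc.trans ?_⟩
  have h1 : ((⌊L⌋₊ : ℕ) : ℝ) ≤ L := Nat.floor_le hL0
  have h2 : Real.logb 2 (1 / (1 / 2 : ℝ)) = 1 := by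
    rw [one_div_one_div]
    exact Real.logb_self_eq_one (by norm_num)
  rw [h2, ← hL]
  have h3 : (2 : ℝ) + 2 / (1 / 2) = 6 := by norm_num
  rw [h3]
  nlinarith

end Pool.Agent.Results.MP_e5d384_lc.FewCorrelations
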