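import Pool.Agent.H700.LR.Multi

/-!
# The log-rank conjecture for functions of the distances in tree-like graphs

Let `H 0, …, H (n-1)` be finite connected graphs and `A` a finite abelian group with `e` generators.
We consider the Boolean functions `F (x, y)`, `x` and `y` in the product of the vertex sets and of `A`,
which depend in an ARBITRARY way on the `n` distances of the components of `x` and `y` in the
graphs `H j`, and on the sum (or the difference) of their components in `A`. Examples: any function
of the distance in one tree; any function of the vector of the distances in `n` trees.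

We prove the bound of the log-rank conjecture for all these functions if the graphs have bounded
treewidth or bounded clique-width, or, more generally, if they are isometric subgraphs of Cartesian
products of boundedly many such graphs; bounded may be replaced by polylogarithmic in the rank.
If all the graphs are paths these are the multilevel Toeplitz matrices, and for `n = 0` the functions
`f (x + y)` on the group `A`.

Proof. (a) In every rectangle `X × Y` there is a rectangle `X' × Y'` with at least the proportion
`2 ^ (- ∑ κ j)` of the rows and of the columns on which all the `n` distances are of the form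
`a j x + b j y` (balanced cuts with few types of neighbourhoods, `Pool.Agent.H700.LR.Host`, `Tw`).
(b) For every `j` all the distances between `X'` and `Y'` are realized by two points of one geodesic
of `H j`; as the function is defined on the whole product, the matrix of `F` on `X' × Y'` arises from
the submatrix of `F` whose rows and columns are the points of the product of the `n` geodesics and
of `A`. This is a multilevel Toeplitz matrix, and its rank is at most `r`. (c) The protocol of the
starting files for sum matrices on coset progressions (`K1H68.CP.final_matrix`) gives a large constant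
rectangle in it. (d) The recursion of Nisan and Wigderson (`Y424.LR.bits_real`).
-/

set_option autoImplicit false

namespace Pool.Agent.Results.MP_e5d384_lc.FunctionsOfDistances

open Finset
open Pool.Agent.H700.LR
open Pool.Agent.Y424.LR (mat bv Rich lr bits_real rank_pos)
open Pool.Agent.H630R2.LR (Proto comm)

theorem sum_case {n e : ℕ} (U : Fin n → Type) [∀ j, Fintype (U j)] (H : ∀ j, SimpleGraph (U j))
    (hH : ∀ j, (H j).Connected) (κ : Fin n → ℕ) (hκ : ∀ j, TreeLike (H j) (κ j))
    (A : Type) [AddCommGroup A] [Fintype A] (gens : Fin e → A)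
    (hgens : AddSubgroup.closure (Set.range gens) = ⊤) (g : (Fin n → ℕ) → A → Bool)
    (F : ((∀ j, U j) × A) → ((∀ j, U j) × A) → Bool)
    (hF : ∀ x y, F x y = g (fun j => (H j).dist (x.1 j) (y.1 j)) (x.2 + y.2)) :
    ∃ c : ℕ, Proto F c ∧ (c : ℝ) ≤ 2 * (Real.logb 2 ((comm F).rank : ℝ) + 1) *
      (∑ j, (κ j : ℝ) + (8 * (n + e) + 10) * (Real.logb 2 ((comm F).rank : ℝ) + 1) ^ 5) := by
  classical
  have hL := Pool.Agent.H630R2.LR.logb_nonneg (comm F).rank
  obtain ⟨L, hLd⟩ : ∃ L, L = Real.logb 2 ((comm F).rank : ℝ) := ⟨_, rfl⟩
  rw [← hLd] at hL ⊢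
  have hK : (0 : ℝ) ≤ ∑ j, (κ j : ℝ) := Finset.sum_nonneg fun j _ => Nat.cast_nonneg _
  by_cases hne : ∃ x y, F x y = true
  · have hr := rank_pos hne
    have hrich := rich_multi U H hH κ hκ A gens hgens g F hF
    have hc : 1 ≤ 2 ^ (∑ j, κ j) * 2 ^ mtoep (n + e) (comm F).rank :=
      Nat.mul_pos (by positivity) (by positivity)
    obtain ⟨b, hb, hble⟩ := bits_real hc hrich hr
    refine ⟨b, hb, hble.trans ?_⟩
    have e1 : lr F = L := by rw [hLd]; rfl
    have e2 : Real.logb 2 (((2 ^ (∑ j, κ j) * 2 ^ mtoep (n + e) (comm F).rank : ℕ)) : ℝ) =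
        ∑ j, (κ j : ℝ) + mtoep (n + e) (comm F).rank := by
      rw [Nat.cast_mul, Nat.cast_pow, Nat.cast_pow, Real.logb_mul (by positivity) (by positivity),
        Real.logb_pow, Real.logb_pow, Nat.cast_ofNat, Real.logb_self_eq_one (by norm_num)]
      push_cast
      ring
    rw [e1, e2]
    have h2 : (mtoep (n + e) (comm F).rank : ℝ) ≤ (8 * (n + e) + 5) * (L + 1) ^ 5 := by
      unfold mtoep
      have h3 : (⌊(8 * ((n + e : ℕ) : ℝ) + 5) * (Real.logb 2 ((comm F).rank : ℝ) + 1) ^ 5⌋₊ : ℝ) ≤
          (8 * ((n + e : ℕ) : ℝ) + 5) * (Real.logb 2 ((comm F).rank : ℝ) + 1) ^ 5 := by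
        refine Nat.floor_le ?_
        rw [← hLd]
        positivity
      rw [← hLd] at h3 ⊢
      push_cast at h3 ⊢
      exact h3
    have h4 : L + 1 ≤ (L + 1) ^ 5 := by
      have : (1 : ℝ) ≤ L + 1 := by linarith
      calc (L + 1) = (L + 1) ^ 1 := (pow_one _).symm
        _ ≤ _ := pow_le_pow_right₀ this (by norm_num)
    have h5 : (2 : ℝ) ≤ 2 * (L + 1) * (L + 1) ^ 5 := by nlinarith
    calc 2 * (L + 1) * (L + (∑ j, (κ j : ℝ) + mtoep (n + e) (comm F).rank) + 3) + 2
        ≤ 2 * (L + 1) * (L + (∑ j, (κ j : ℝ) + (8 * (n + e) + 5) * (L + 1) ^ 5) + 3) +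
          2 * (L + 1) * (L + 1) ^ 5 := by gcongr
      _ = 2 * (L + 1) * (∑ j, (κ j : ℝ) + (8 * (n + e) + 6) * (L + 1) ^ 5 + (L + 3)) := by ring
      _ ≤ 2 * (L + 1) * (∑ j, (κ j : ℝ) + (8 * (n + e) + 6) * (L + 1) ^ 5 + 4 * (L + 1) ^ 5) := by
        gcongr
        linarith
      _ = _ := by ring
  · push Not at hne
    have h0 : ∀ x y, F x y = false := fun x y => by
      have := hne x y
      rwa [← Bool.not_eq_true]
    refine ⟨0, Pool.Agent.H630R2.LR.Proto.const F false h0, ?_⟩
    rw [Nat.cast_zero]
    positivity

/-- **The log-rank conjecture for functions of the distances in tree-like graphs and of a sum in a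
finite abelian group.** Let `H j`, `j < n`, be finite connected graphs with `TreeLike (H j) (κ j)`
(for instance `κ j = k + 3` if `H j` has treewidth at most `k`), `A` a finite abelian group generated by
`e` elements, and let `F (x, y)` be an arbitrary Boolean function of the `n` distances of `x j` and
`y j` in `H j` and of the sum, or of the difference, of the components of `x` and `y` in `A`. If `r` is
the real rank of the communication matrix of `F` and `L = log₂ r`, then `F` has a deterministic
protocol with at most `2 (L + 1) (∑ κ j + (8 (n + e) + 10) (L + 1) ^ 5)` bits. -/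
theorem result (n e : ℕ) (U : Fin n → Type) [∀ j, Fintype (U j)] (H : ∀ j, SimpleGraph (U j))
    (hH : ∀ j, (H j).Connected) (κ : Fin n → ℕ) (hκ : ∀ j, TreeLike (H j) (κ j))
    (A : Type) [AddCommGroup A] [Fintype A] (gens : Fin e → A)
    (hgens : AddSubgroup.closure (Set.range gens) = ⊤) (g : (Fin n → ℕ) → A → Bool)
    (F : ((∀ j, U j) × A) → ((∀ j, U j) × A) → Bool)
    (hF : (∀ x y, F x y = g (fun j => (H j).dist (x.1 j) (y.1 j)) (x.2 + y.2)) ∨
      (∀ x y, F x y = g (fun j => (H j).dist (x.1 j) (y.1 j)) (x.2 - y.2))) :
    ∃ (c : ℕ) (owner : List Bool → Bool) (a : List Bool → ((∀ j, U j) × A) → Bool)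
      (b : List Bool → ((∀ j, U j) × A) → Bool) (out : List Bool → Bool),
      (∀ x y, out (Nat.iterate
        (fun t : List Bool => t ++ [if owner t then a t x else b t y]) c []) = F x y) ∧
      (c : ℝ) ≤ 2 * (Real.logb 2 ((Matrix.of (fun x y => if F x y then (1 : ℝ) else 0)).rank : ℝ)
          + 1) * (∑ j, (κ j : ℝ) + (8 * (n + e) + 10) *
        (Real.logb 2 ((Matrix.of (fun x y => if F x y then (1 : ℝ) else 0)).rank : ℝ) + 1) ^ 5) := by
  classical
  have key : ∃ c : ℕ, Proto F c ∧ (c : ℝ) ≤ 2 * (Real.logb 2 ((comm F).rank : ℝ) + 1) *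
      (∑ j, (κ j : ℝ) + (8 * (n + e) + 10) * (Real.logb 2 ((comm F).rank : ℝ) + 1) ^ 5) := by
    rcases hF with hF | hF
    · exact sum_case U H hH κ hκ A gens hgens g F hF
    · let σ : ((∀ j, U j) × A) → ((∀ j, U j) × A) := fun y => (y.1, -y.2)
      have hσ : ∀ y, σ (σ y) = y := by
        rintro ⟨y1, y2⟩
        simp [σ]
      obtain ⟨c, hc, hcle⟩ := sum_case U H hH κ hκ A gens hgens g (fun x y => F x (σ y))
        (fun x y => by rw [hF]; simp only [σ, sub_neg_eq_add])
      have hr : (comm (fun x y => F x (σ y))).rank = (comm F).rank := by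
        refine le_antisymm ?_ ?_
        · have : comm (fun x y => F x (σ y)) = (comm F).submatrix id σ := rfl
          rw [this]
          exact Matrix.rank_submatrix_le _ _ _
        · have : comm F = (comm (fun x y => F x (σ y))).submatrix id σ := by
            ext x y
            show (if F x y then (1 : ℝ) else 0) = (if F x (σ (σ y)) then (1 : ℝ) else 0)
            rw [hσ]
          rw [this]
          exact Matrix.rank_submatrix_le _ _ _
      rw [hr] at hcle
      refine ⟨c, ?_, hcle⟩
      have := hc.comap (id : ((∀ j, U j) × A) → _) σ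
      have e : (fun x y => F x (σ (σ y))) = F := by
        funext x y
        rw [hσ]
      rw [← e]
      exact this
  obtain ⟨c, ⟨owner, a, b, out, h⟩, hc⟩ := key
  exact ⟨c, owner, a, b, out, h, hc⟩

end Pool.Agent.Results.MP_e5d384_lc.FunctionsOfDistances
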