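import Pool.Agent.H711.IN.Final

/-!
# The log-rank conjecture and the number of negative eigenvalues

Let `r` be the real rank of `F : X × Y → {0,1}`. Suppose that `F` is a submatrix of a real symmetric
matrix `S` (rows and columns may be repeated) with entries of absolute value at most `β`, or more
generally that `F` is decided by comparing the entries of such a submatrix with a threshold, with a
gap of size one. The diagonal blocks of `S` and its size are arbitrary. Let `t` be the number of the
eigenvalues of `S` which are less than `-θ`, or the number of those which are greater than `θ`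
(`θ ≥ 0` arbitrary). Then

  `D(F) ≤ 1800 (β + θ) (√t + 1) (log₂ r + 1)^2`  and  `D(F) ≤ 140 (β + θ)^2 (t + 1) log₂ (r + 1)`.

So the log-rank conjecture holds for all such functions when `β`, `θ` and `t` are polylogarithmic
in the rank. In particular, for a symmetric Boolean matrix `F` with `p` positive and `q` negative
eigenvalues

  `D(F) ≤ 1800 (√(min p q) + 1) (log₂ r + 1)^2`, where `r = p + q`:

a symmetric counterexample to the conjecture has many positive and many negative eigenvalues, and
the number of large positive and of large negative eigenvalues is not polylogarithmic in `r`.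

The first bound is a common generalization of Lovett's bound `√r` (up to a factor `log r`; every `F`
of rank `r` is a block of a symmetric matrix with zero diagonal blocks, which has `r` negative
eigenvalues) and of the bound for functions of bounded `γ₂` norm (`t = 0`, `θ = 0`: `S` is positive
semidefinite).

Proof. Weight the rows of a rectangle `A × B` with `1 / √|A|` and `1 / √|B|`. The matrix obtained
from `S + θ` has trace and Frobenius norm at most `2 (β + θ)`, and at most `t` negative eigenvalues,
so its nuclear norm is at most `2 (β + θ) (1 + 2 √t)`. The spectral decomposition gives vectors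
`u_x`, `v_y` with `⟨u_x, v_y⟩ = S(x, y)` whose squared lengths are at most this much on average,
hence on half of the rows and of the columns. Gaussian rounding by sines: for a random vector `g`
the expectation of the product of `(1 + sin ⟨g, u⟩ / √R) / 2` and `(1 + sin ⟨g, v⟩ / √R) / 2` is
`(1 + e⁻¹ sinh (⟨u, v⟩ / R)) / 4` for vectors of squared length `R`; a product of `O(R log r)`
independent copies is a distribution on rectangles in which the entries with the large inner products
are dominating, up to a fraction `1 / r`. Now the lemma of Gavinsky and Lovett and the theorem of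
Nisan and Wigderson apply. The second bound: the same vectors show that the VC dimension of `F` is
at most `4 γ^2`, `γ = 2 (β + θ) (1 + 2 √t) + θ`.
-/

set_option autoImplicit false

namespace Pool.Agent.Results.MP_e5d384_lc.Inertia

open Finset Pool.Agent.H711.IN

/-- `F` has a deterministic two-party protocol with exactly `c` bits. (Protocols exactly as in the
frozen statement S15531: `t` is the transcript so far, `owner t` says who speaks, and the answer is
a function of the transcript.) -/
def HasProtocol {X Y : Type} (F : X → Y → Bool) (c : ℕ) : Prop :=
  ∃ (owner : List Bool → Bool) (a : List Bool → X → Bool)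
      (b : List Bool → Y → Bool) (out : List Bool → Bool),
      ∀ x y, out (Nat.iterate
        (fun t : List Bool => t ++ [if owner t then a t x else b t y]) c []) = F x y

/-- The real 0/1 matrix of `F`. -/
noncomputable def mat {X Y : Type} (F : X → Y → Bool) : Matrix X Y ℝ :=
  Matrix.of fun (x : X) (y : Y) => if F x y then (1 : ℝ) else 0

/-- **The log-rank conjecture and the number of negative (or positive) eigenvalues.**
Protocols as in S15531.
(1) `F : X × Y → {0,1}` is decided, with a gap of size one, by comparing the entries of a submatrix
(with rows `a x` and columns `b y`) of a real symmetric matrix `S` with the threshold `τ`; the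
entries of `S` have absolute value at most `β`, and at most `t` eigenvalues of `S` are less than
`-θ`, or at most `t` eigenvalues are greater than `θ`.
(2) The case of a symmetric Boolean matrix with at most `t` negative or at most `t` positive
eigenvalues. -/
theorem result :
    (∀ (X Y Z : Type) [Fintype X] [Fintype Y] [Fintype Z] [DecidableEq Z] (F : X → Y → Bool)
      (S : Matrix Z Z ℝ) (hS : S.IsHermitian) (a : X → Z) (b : Y → Z) (β θ τ : ℝ) (t : ℕ),
      0 ≤ β → 0 ≤ θ → (∀ z z', |S z z'| ≤ β) →
      ((univ.filter fun i => hS.eigenvalues i < -θ).card ≤ t ∨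
        (univ.filter fun i => θ < hS.eigenvalues i).card ≤ t) →
      (∀ x y, if F x y then τ + 1 ≤ S (a x) (b y) else S (a x) (b y) ≤ τ) →
      (∃ c : ℕ, HasProtocol F c ∧ (c : ℝ) ≤
        1800 * (β + θ) * (√t + 1) * (Real.logb 2 (mat F).rank + 1) ^ 2) ∧
      (∃ c : ℕ, HasProtocol F c ∧ (c : ℝ) ≤
        140 * (β + θ) ^ 2 * (t + 1) * Real.logb 2 ((mat F).rank + 1))) ∧
    (∀ (X : Type) [Fintype X] [DecidableEq X] (F : X → X → Bool) (hF : (mat F).IsHermitian) (t : ℕ),
      ((univ.filter fun i => hF.eigenvalues i < 0).card ≤ t ∨
        (univ.filter fun i => 0 < hF.eigenvalues i).card ≤ t) →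
      (∃ c : ℕ, HasProtocol F c ∧ (c : ℝ) ≤
        1800 * (√t + 1) * (Real.logb 2 (mat F).rank + 1) ^ 2) ∧
      (∃ c : ℕ, HasProtocol F c ∧ (c : ℝ) ≤ 140 * (t + 1) * Real.logb 2 ((mat F).rank + 1))) := by
  classical
  have main : ∀ (X Y Z : Type) [Fintype X] [Fintype Y] [Fintype Z] [DecidableEq Z]
      (F : X → Y → Bool)
      (S : Matrix Z Z ℝ) (hS : S.IsHermitian) (a : X → Z) (b : Y → Z) (β θ τ : ℝ) (t : ℕ),
      0 ≤ β → 0 ≤ θ → (∀ z z', |S z z'| ≤ β) →
      ((univ.filter fun i => hS.eigenvalues i < -θ).card ≤ t ∨
        (univ.filter fun i => θ < hS.eigenvalues i).card ≤ t) →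
      (∀ x y, if F x y then τ + 1 ≤ S (a x) (b y) else S (a x) (b y) ≤ τ) →
      (∃ c : ℕ, HasProtocol F c ∧ (c : ℝ) ≤
        1800 * (β + θ) * (√t + 1) * (Real.logb 2 (mat F).rank + 1) ^ 2) ∧
      (∃ c : ℕ, HasProtocol F c ∧ (c : ℝ) ≤
        140 * (β + θ) ^ 2 * (t + 1) * Real.logb 2 ((mat F).rank + 1)) := by
    intro X Y Z _ _ _ _ F S hS a b β θ τ t hβ0 hθ0 hβ ht hF
    have hsymm : ∀ z z', S z z' = S z' z := by
      intro z z'
      have := hS.apply z z'
      simpa using this.symm
    rcases ht with ht | ht
    · exact both F (fun z z' => S z z') hsymm β θ hβ0 hθ0 hβ t (negLe_of_eigenvalues S hS θ t ht)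
        a b τ true (fun x y => by
          have h := hF x y
          constructor
          · intro h1
            rwa [if_pos h1] at h
          · intro h1
            rwa [if_neg h1] at h)
    · exact both F (fun z z' => -S z z') (fun z z' => by rw [hsymm z z']) β θ hβ0 hθ0
        (fun z z' => by rw [abs_neg]; exact hβ z z') t (negLe_of_eigenvalues' S hS θ t ht)
        a b (-τ - 1) false (fun x y => by
          have h := hF x y
          constructor
          · intro h1
            rw [h1, if_neg Bool.false_ne_true] at h
            linarith
          · intro h1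
            have h2 : F x y = true := by simpa using h1
            rw [if_pos h2] at h
            linarith)
  refine ⟨main, ?_⟩
  intro X _ _ F hF t ht
  have h := main X X X F (mat F) hF id id 1 0 0 t (by norm_num) le_rfl (fun z z' => by
    show |(if F z z' then (1 : ℝ) else 0)| ≤ 1
    split_ifs <;> simp) (by rw [neg_zero]; exact ht) (fun x y => by
    show if F x y then (0 : ℝ) + 1 ≤ (if F x y then (1 : ℝ) else 0) else
      (if F x y then (1 : ℝ) else 0) ≤ 0
    cases F x y <;> simp)
  simpa using h

end Pool.Agent.Results.MP_e5d384_lc.Inertia
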